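import Mathlib

set_option autoImplicit false

/-!
# Right translations on functions of integral matrices modulo `3`, part A:
the filtration and the operators
-/

namespace Pool.Agent.Lib.MP_7c5fb9_nt

namespace LO

namespace KR

noncomputable section

/-- Integral matrices. -/
abbrev Mt := Matrix (Fin 2) (Fin 2) ℤ

/-- The space of all functions. -/
abbrev Fn := Mt → ZMod 3

/-- Its operators. -/
abbrev Op := Module.End (ZMod 3) Fn

/-- Right translations. -/
def R : Mt →* Op where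
  toFun k := { toFun := fun v M => v (M * k), map_add' := fun _ _ => rfl, map_smul' := fun _ _ => rfl }
  map_one' := by
    ext F x
    change F (x * 1) = F x
    rw [mul_one]
  map_mul' p q := by
    ext F x
    change F (x * (p * q)) = F (x * p * q)
    rw [mul_assoc]

theorem R_apply (k : Mt) (v : Fn) (M : Mt) : R k v M = v (M * k) := rfl

/-- The functions of level `3 ^ m` on matrices of determinant prime to `3`, modulo scalars. -/
structure Lev (m : ℕ) (v : Fn) : Prop where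
  per : ∀ M N : Mt, v (M + (3 ^ m : ℤ) • N) = v M
  scal : ∀ (c : ℤ) (M : Mt), ¬ (3 : ℤ) ∣ c → v (c • M) = v M
  supp : ∀ M : Mt, (3 : ℤ) ∣ M.det → v M = 0

/-- The functions of level `3 ^ m`. -/
def A (m : ℕ) : Submodule (ZMod 3) Fn where
  carrier := {F | Lev m F}
  add_mem' {F G} hF hG :=
    { per := fun x y => by rw [Pi.add_apply, hF.per, hG.per, Pi.add_apply]
      scal := fun c x h => by rw [Pi.add_apply, hF.scal c x h, hG.scal c x h, Pi.add_apply]
      supp := fun x h => by rw [Pi.add_apply, hF.supp x h, hG.supp x h, add_zero] }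
  zero_mem' := ⟨fun _ _ => rfl, fun _ _ _ => rfl, fun _ _ => rfl⟩
  smul_mem' a F hF :=
    { per := fun x y => by rw [Pi.smul_apply, hF.per, Pi.smul_apply]
      scal := fun c x h => by rw [Pi.smul_apply, hF.scal c x h, Pi.smul_apply]
      supp := fun x h => by rw [Pi.smul_apply, hF.supp x h, smul_zero] }

theorem mem_A {m : ℕ} {F : Fn} : F ∈ A m ↔ Lev m F := Iff.rfl

theorem A_mono {m n : ℕ} (h : m ≤ n) : A m ≤ A n := by
  intro F hF
  rw [mem_A] at hF ⊢
  refine ⟨fun x y => ?_, hF.scal, hF.supp⟩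
  have : (3 ^ n : ℤ) • y = (3 ^ m : ℤ) • ((3 ^ (n - m) : ℤ) • y) := by
    rw [smul_smul, ← pow_add]
    congr 2
    omega
  rw [this, hF.per]

theorem R_mem {m : ℕ} {k : Mt} (hk : ¬ (3 : ℤ) ∣ k.det) {F : Fn} (hF : F ∈ A m) :
    R k F ∈ A m := by
  rw [mem_A] at hF ⊢
  refine ⟨fun x y => ?_, fun c x h => ?_, fun x h => ?_⟩
  · rw [R_apply, R_apply, add_mul, Matrix.smul_mul, hF.per]
  · rw [R_apply, R_apply, Matrix.smul_mul, hF.scal c _ h]
  · rw [R_apply]
    refine hF.supp _ ?_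
    rw [Matrix.det_mul]
    exact Dvd.dvd.mul_right h _

/-- Scalars act trivially. -/
theorem R_int {m : ℕ} {c : ℤ} (hc : ¬ (3 : ℤ) ∣ c) {F : Fn} (hF : F ∈ A m) :
    R (c • (1 : Mt)) F = F := by
  ext x
  rw [R_apply, Matrix.mul_smul, mul_one, (mem_A.mp hF).scal _ _ hc]

/-- Matrices congruent to a scalar modulo the level act trivially. -/
theorem R_level {m : ℕ} {c : ℤ} (hc : ¬ (3 : ℤ) ∣ c) (w : Mt) {F : Fn} (hF : F ∈ A m) :
    R (c • (1 : Mt) + (3 ^ m : ℤ) • w) F = F := by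
  have h := mem_A.mp hF
  ext x
  rw [R_apply, mul_add, Matrix.mul_smul, Matrix.mul_smul, mul_one, h.per, h.scal _ _ hc]

/-! ### The filtration -/

/-- The three matrices `J`. -/
def J (a : Fin 3) : Mt :=
  if a = 0 then !![0, 1; -1, 0] else if a = 1 then !![1, 1; 1, -1] else !![1, -1; -1, -1]

/-- Their squares. -/
def sq (a : Fin 3) : ℤ := if a = 0 then -1 else 2

theorem J_sq (a : Fin 3) : J a * J a = sq a • (1 : Mt) := by
  fin_cases a <;> (ext i j; fin_cases i <;> fin_cases j <;> simp [J, sq, Matrix.mul_apply])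

theorem sq_mod (a : Fin 3) : sq a % 3 = 2 := by
  fin_cases a <;> simp [sq]

/-- The generators `g = 1 + 3 J`. -/
def qg (a : Fin 3) : Mt := 1 + (3 : ℤ) • J a

theorem det_qg (a : Fin 3) : ¬ (3 : ℤ) ∣ (qg a).det := by
  fin_cases a <;> simp [qg, J, Matrix.det_fin_two]

/-- The operators `X, Y, Z`. -/
def X (a : Fin 3) : Op := R (qg a) - 1

theorem X_mem {m : ℕ} (a : Fin 3) {F : Fn} (hF : F ∈ A m) : X a F ∈ A m := by
  unfold X
  rw [LinearMap.sub_apply, Module.End.one_apply]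
  exact Submodule.sub_mem _ (R_mem (det_qg a) hF) hF

/-- The filtration. -/
def Fil (m : ℕ) : ℕ → Submodule (ZMod 3) Fn
  | 0 => ⊥
  | d + 1 => A m ⊓ ⨅ a : Fin 3, (Fil m d).comap (X a)

theorem mem_Fil_succ {m d : ℕ} {F : Fn} :
    F ∈ Fil m (d + 1) ↔ F ∈ A m ∧ ∀ a, X a F ∈ Fil m d := by
  simp [Fil, Submodule.mem_iInf]

theorem Fil_le_A {m d : ℕ} : Fil m d ≤ A m := by
  cases d with
  | zero => exact bot_le
  | succ d => exact fun F hF => (mem_Fil_succ.mp hF).1

theorem Fil_step {m d : ℕ} : Fil m d ≤ Fil m (d + 1) := by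
  induction d with
  | zero => exact bot_le
  | succ d ih =>
    intro F hF
    rw [mem_Fil_succ] at hF ⊢
    exact ⟨hF.1, fun a => ih (hF.2 a)⟩

theorem Fil_mono {m d e : ℕ} (h : d ≤ e) : Fil m d ≤ Fil m e := by
  induction h with
  | refl => exact le_rfl
  | step _ ih => exact ih.trans Fil_step

theorem Fil_level {m n d : ℕ} (h : m ≤ n) : Fil m d ≤ Fil n d := by
  induction d with
  | zero => exact le_rfl
  | succ d ih =>
    intro F hF
    rw [mem_Fil_succ] at hF ⊢
    exact ⟨A_mono h hF.1, fun a => ih (hF.2 a)⟩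

theorem mem_Fil_of_level {m n d : ℕ} {F : Fn} (hF : F ∈ Fil n d) (hA : F ∈ A m) :
    F ∈ Fil m d := by
  induction d generalizing F with
  | zero => exact hF
  | succ d ih =>
    rw [mem_Fil_succ] at hF ⊢
    exact ⟨hA, fun a => ih (hF.2 a) (X_mem a hA)⟩

/-- The operators lowering the filtration by `r`. -/
def E (m r : ℕ) : Submodule (ZMod 3) Op where
  carrier := {L | ∀ d, ∀ F ∈ Fil m (d + r), L F ∈ Fil m d}
  add_mem' {L M} hL hM d F hF := by
    rw [LinearMap.add_apply]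
    exact Submodule.add_mem _ (hL d F hF) (hM d F hF)
  zero_mem' d F _ := by
    rw [LinearMap.zero_apply]
    exact Submodule.zero_mem _
  smul_mem' a L hL d F hF := by
    rw [LinearMap.smul_apply]
    exact Submodule.smul_mem _ _ (hL d F hF)

theorem mem_E {m r : ℕ} {L : Op} : L ∈ E m r ↔ ∀ d, ∀ F ∈ Fil m (d + r), L F ∈ Fil m d := Iff.rfl

theorem E_anti {m r s : ℕ} (h : r ≤ s) : E m s ≤ E m r := by
  intro L hL
  rw [mem_E] at hL ⊢
  intro d F hF
  have h1 : F ∈ Fil m ((d + r - s) + s) := Fil_mono (by omega) hF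
  exact Fil_mono (by omega) (hL _ F h1)

theorem E_mul {m r s : ℕ} {L M : Op} (hL : L ∈ E m r) (hM : M ∈ E m s) : L * M ∈ E m (r + s) := by
  rw [mem_E] at *
  intro d F hF
  rw [Module.End.mul_apply]
  refine hL d _ (hM (d + r) F ?_)
  rwa [add_assoc]

theorem E_mul' {m r s t : ℕ} {L M : Op} (hL : L ∈ E m r) (hM : M ∈ E m s) (h : t ≤ r + s) :
    L * M ∈ E m t := E_anti h (E_mul hL hM)

theorem one_mem_E {m : ℕ} : (1 : Op) ∈ E m 0 := fun _ _ hF => hF

theorem X_mem_E {m : ℕ} (a : Fin 3) : X a ∈ E m 1 := fun _ _ hF => (mem_Fil_succ.mp hF).2 a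

theorem E_pow {m r : ℕ} {L : Op} (hL : L ∈ E m r) (n : ℕ) : L ^ n ∈ E m (n * r) := by
  induction n with
  | zero =>
    rw [pow_zero, zero_mul]
    exact one_mem_E
  | succ n ih =>
    rw [pow_succ]
    exact E_mul' ih hL (by rw [Nat.add_mul, one_mul])

/-- Operators vanishing on the functions of level `3 ^ m`. -/
theorem mem_E_of_zero {m r : ℕ} {L : Op} (h : ∀ F ∈ A m, L F = 0) : L ∈ E m r := by
  rw [mem_E]
  intro d F hF
  rw [h F (Fil_le_A hF)]
  exact Submodule.zero_mem _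

theorem three_zero : (3 : Op) = 0 := by
  ext F x
  change (3 : ℕ) • F x = 0
  rw [nsmul_eq_mul]
  have : ((3 : ℕ) : ZMod 3) = 0 := by decide
  rw [this, zero_mul]

instance : CharP Op 3 := by
  have hn : Nontrivial Op := inferInstance
  exact charP_of_injective_algebraMap (algebraMap (ZMod 3) Op).injective 3

theorem sub_one_pow {g : Op} (n : ℕ) : g ^ 3 ^ n - 1 = (g - 1) ^ 3 ^ n := by
  rw [sub_pow_char_pow_of_commute 3 n (Commute.one_right g), one_pow]

/-! ### Powers of `1 + 3 J` -/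

/-- Elements `a + b J` of the commutative ring generated by `J`. -/
def el (I : Mt) (a b : ℤ) : Mt := a • (1 : Mt) + b • I

theorem el_mul {I : Mt} {e : ℤ} (hI : I * I = e • (1 : Mt)) (a b c d : ℤ) :
    el I a b * el I c d = el I (a * c + e * (b * d)) (a * d + b * c) := by
  unfold el
  rw [add_mul, mul_add, mul_add, Matrix.smul_mul, Matrix.smul_mul, Matrix.smul_mul,
    Matrix.smul_mul, one_mul, one_mul, Matrix.mul_smul, Matrix.mul_smul, mul_one, hI]
  simp only [smul_smul]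
  module

theorem pow_form {I : Mt} {e : ℤ} (hI : I * I = e • (1 : Mt)) (n : ℕ) : ∃ a b : ℤ, a % 3 = 1 ∧
    b % 3 = 1 ∧ (1 + (3 : ℤ) • I) ^ 3 ^ n = a • (1 : Mt) + (3 ^ (n + 1) * b) • I := by
  induction n with
  | zero => exact ⟨1, 1, rfl, rfl, by simp⟩
  | succ n ih =>
    obtain ⟨a, b, ha, hb, h⟩ := ih
    refine ⟨a ^ 3 + 3 ^ (2 * n + 3) * a * b ^ 2 * e, a ^ 2 * b + 3 ^ (2 * n + 1) * b ^ 3 * e,
      ?_, ?_, ?_⟩
    · have h1 : (3 : ℤ) ∣ 3 ^ (2 * n + 3) * a * b ^ 2 * e :=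
        Dvd.dvd.mul_right (Dvd.dvd.mul_right (Dvd.dvd.mul_right (dvd_pow_self _ (by omega)) _) _) _
      have h2 : a ^ 3 % 3 = 1 := by
        simp [pow_succ, Int.mul_emod, ha]
      omega
    · have h1 : (3 : ℤ) ∣ 3 ^ (2 * n + 1) * b ^ 3 * e :=
        Dvd.dvd.mul_right (Dvd.dvd.mul_right (dvd_pow_self _ (by omega)) _) _
      have h2 : a ^ 2 * b % 3 = 1 := by
        simp [pow_succ, Int.mul_emod, ha, hb]
      omega
    · rw [pow_succ, pow_mul, h]
      have h3 := el_mul hI a (3 ^ (n + 1) * b) a (3 ^ (n + 1) * b)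
      have h4 := el_mul hI (a * a + e * (3 ^ (n + 1) * b * (3 ^ (n + 1) * b)))
        (a * (3 ^ (n + 1) * b) + 3 ^ (n + 1) * b * a) a (3 ^ (n + 1) * b)
      rw [← h3] at h4
      have h5 : (a • (1 : Mt) + (3 ^ (n + 1) * b) • I) ^ 3 =
          el I a (3 ^ (n + 1) * b) * el I a (3 ^ (n + 1) * b) * el I a (3 ^ (n + 1) * b) := by
        unfold el
        rw [pow_succ, pow_two]
      rw [h5, h4]
      unfold el
      congr 2
      · ring
      · ring

end

end KR

end LO

end Pool.Agent.Lib.MP_7c5fb9_nt
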