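import Pool.Agent.Lib.MP_7c5fb9_nt.LO.KR.A

set_option autoImplicit false

/-!
# Right translations on functions of integral matrices modulo `3`, part B:
deep elements lower the filtration a lot
-/

namespace Pool.Agent.Lib.MP_7c5fb9_nt

namespace LO

namespace KR

noncomputable section

theorem mul_adj (k : Mt) : k * k.adjugate = k.det • (1 : Mt) := Matrix.mul_adjugate k

theorem adj_mul (k : Mt) : k.adjugate * k = k.det • (1 : Mt) := Matrix.adjugate_mul k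

theorem R_qg (a : Fin 3) : R (qg a) = 1 + X a := by
  unfold X
  abel

theorem R_qg_mem {m : ℕ} (a : Fin 3) : R (qg a) ∈ E m 0 := by
  rw [R_qg]
  exact Submodule.add_mem _ one_mem_E (E_anti (by omega) (X_mem_E a))

theorem R_pow_sub {m : ℕ} (a : Fin 3) (j : ℕ) : R (qg a ^ 3 ^ j) - 1 ∈ E m (3 ^ j) := by
  rw [map_pow, sub_one_pow]
  have := E_pow (m := m) (X_mem_E a) (3 ^ j)
  rwa [mul_one] at this

/-- The elements `(1 + 3 J) ^ (3 ^ j t)`, `t = 0, 1, 2`. -/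
def Hs (a : Fin 3) (j : ℕ) (h : Mt) : Prop :=
  h = 1 ∨ h = qg a ^ 3 ^ j ∨ h = qg a ^ 3 ^ j * qg a ^ 3 ^ j

theorem Hs_mem {m : ℕ} {a : Fin 3} {j : ℕ} {h : Mt} (hh : Hs a j h) :
    R h - 1 ∈ E m (3 ^ j) ∧ R h ∈ E m 0 := by
  have hR : R (qg a ^ 3 ^ j) ∈ E m 0 := by
    rw [map_pow]
    have := E_pow (m := m) (R_qg_mem a) (3 ^ j)
    rwa [mul_zero] at this
  rcases hh with rfl | rfl | rfl
  · rw [map_one, sub_self]
    exact ⟨Submodule.zero_mem _, one_mem_E⟩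
  · exact ⟨R_pow_sub a j, hR⟩
  · rw [map_mul]
    have : R (qg a ^ 3 ^ j) * R (qg a ^ 3 ^ j) - 1 =
        (R (qg a ^ 3 ^ j) - 1) * R (qg a ^ 3 ^ j) + (R (qg a ^ 3 ^ j) - 1) := by
      rw [sub_mul, one_mul]
      abel
    refine ⟨?_, E_mul' hR hR (by omega)⟩
    rw [this]
    exact Submodule.add_mem _ (E_mul' (R_pow_sub a j) hR (by omega)) (R_pow_sub a j)

theorem sq_mod_three {c : ℤ} (h : ¬ (3 : ℤ) ∣ c) : c ^ 2 % 3 = 1 := by
  have h1 : c % 3 = 1 ∨ c % 3 = 2 := by omega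
  rcases h1 with h1 | h1 <;> simp [pow_two, Int.mul_emod, h1]

theorem exists_h (a : Fin 3) (j : ℕ) (t : ℤ) : ∃ (u v : ℤ) (h : Mt),
    u % 3 = 1 ∧ (v - t) % 3 = 0 ∧ h = u • (1 : Mt) + (3 ^ (j + 1) * v) • J a ∧
    Hs a j h := by
  obtain ⟨u, v, hu, hv, h⟩ := pow_form (J_sq a) j
  have h0 : t % 3 = 0 ∨ t % 3 = 1 ∨ t % 3 = 2 := by omega
  rcases h0 with h0 | h0 | h0
  · exact ⟨1, 0, 1, rfl, by omega, by simp, Or.inl rfl⟩
  · exact ⟨u, v, qg a ^ 3 ^ j, hu, by omega, h, Or.inr (Or.inl rfl)⟩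
  · refine ⟨u ^ 2 + sq a * (3 ^ (j + 1) * v) ^ 2, 2 * u * v, qg a ^ 3 ^ j * qg a ^ 3 ^ j, ?_, ?_,
      ?_, Or.inr (Or.inr rfl)⟩
    · have h1 : (3 : ℤ) ∣ sq a * (3 ^ (j + 1) * v) ^ 2 := by
        refine Dvd.dvd.mul_left ?_ _
        refine Dvd.dvd.pow (Dvd.dvd.mul_right (dvd_pow_self _ (by omega)) _) (by omega)
      have h2 : u ^ 2 % 3 = 1 := by simp [pow_two, Int.mul_emod, hu]
      omega
    · have h2 : (2 * u * v) % 3 = 2 := by simp [Int.mul_emod, hu, hv]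
      omega
    · have h3 : qg a ^ 3 ^ j = el (J a) u (3 ^ (j + 1) * v) := h
      rw [h3, el_mul (J_sq a)]
      unfold el
      congr 2
      · ring
      · ring

theorem det_form {u : ℤ} (w : Mt) (n : ℕ) (hu : ¬ (3 : ℤ) ∣ u) :
    ¬ (3 : ℤ) ∣ (u • (1 : Mt) + (3 ^ (n + 1) : ℤ) • w).det := by
  have h1 : (u • (1 : Mt) + (3 ^ (n + 1) : ℤ) • w).det = u ^ 2 +
      3 ^ (n + 1) * (u * (w 0 0 + w 1 1) + 3 ^ (n + 1) * w.det) := by
    simp only [Matrix.det_fin_two, Matrix.add_apply, Matrix.smul_apply, smul_eq_mul,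
      Matrix.one_apply, Fin.reduceEq, ite_false]
    simp
    ring
  rw [h1]
  have h2 := sq_mod_three hu
  have h4 : (3 : ℤ) ∣ 3 ^ (n + 1) * (u * (w 0 0 + w 1 1) + 3 ^ (n + 1) * w.det) :=
    Dvd.dvd.mul_right (dvd_pow_self _ (by omega)) _
  omega

theorem step {m r : ℕ} {h k : Mt} (hh : ¬ (3 : ℤ) ∣ h.det) (h1 : R (k * h.adjugate) - 1 ∈ E m r)
    (h2 : R h - 1 ∈ E m r) (h3 : R h ∈ E m 0) : R k - 1 ∈ E m r := by
  have e : R k - 1 = ((R (k * h.adjugate) - 1) * R h + (R h - 1)) +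
      (R k - R (k * h.adjugate) * R h) := by
    rw [sub_mul, one_mul]
    abel
  rw [e]
  refine Submodule.add_mem _ (Submodule.add_mem _ (E_mul' h1 h3 (by omega)) h2) ?_
  refine mem_E_of_zero fun F hF => ?_
  rw [← map_mul, mul_assoc, adj_mul, map_mul, LinearMap.sub_apply, Module.End.mul_apply,
    R_int hh hF, sub_self]

/-- The coordinates modulo `3` with respect to the matrices `J`. -/
def co (w : Mt) : Fin 3 → ℤ :=
  ![w 1 0 - w 0 1, w 0 0 + w 0 1 + w 1 0 - w 1 1, w 0 0 - w 1 1 - w 0 1 - w 1 0]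

theorem co_add (w w' : Mt) (a : Fin 3) : co (w + w') a = co w a + co w' a := by
  fin_cases a <;> simp [co] <;> ring

theorem co_sub (w w' : Mt) (a : Fin 3) : co (w - w') a = co w a - co w' a := by
  fin_cases a <;> simp [co] <;> ring

theorem co_smul (c : ℤ) (w : Mt) (a : Fin 3) : co (c • w) a = c * co w a := by
  fin_cases a <;> simp [co] <;> ring

theorem co_J (a b : Fin 3) : co (J a) b % 3 = if a = b then 1 else 0 := by
  fin_cases a <;> fin_cases b <;> simp [co, J]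

theorem adj_form (a : Fin 3) (u t : ℤ) : (u • (1 : Mt) + t • J a).adjugate =
    u • (1 : Mt) - t • J a := by
  rw [Matrix.adjugate_fin_two, Matrix.one_fin_two]
  fin_cases a <;> (ext i j; fin_cases i <;> fin_cases j <;> simp [J]) <;> try ring

theorem stepB (a : Fin 3) (j : ℕ) (c : ℤ) (hc : ¬ (3 : ℤ) ∣ c) (w : Mt) :
    ∃ (h : Mt) (c' : ℤ) (w' : Mt), Hs a j h ∧ ¬ (3 : ℤ) ∣ h.det ∧ ¬ (3 : ℤ) ∣ c' ∧
      (c • (1 : Mt) + (3 ^ (j + 1) : ℤ) • w) * h.adjugate =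
        c' • (1 : Mt) + (3 ^ (j + 1) : ℤ) • w' ∧
      co w' a % 3 = 0 ∧ ∀ b, b ≠ a → co w' b % 3 = co w b % 3 := by
  obtain ⟨u, v, h, hu, hv, hh, hHs⟩ := exists_h a j (c * co w a)
  refine ⟨h, c * u, u • w - (c * v) • J a - (3 ^ (j + 1) * v : ℤ) • (w * J a),
    hHs, ?_, ?_, ?_, ?_, ?_⟩
  · have : h = u • (1 : Mt) + (3 ^ (j + 1) : ℤ) • (v • J a) := by rw [hh, smul_smul]
    rw [this]
    exact det_form _ _ (by omega)
  · intro hcu
    rcases Int.prime_three.dvd_or_dvd hcu with h4 | h4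
    · exact hc h4
    · omega
  · rw [hh, adj_form]
    rw [add_mul, mul_sub, mul_sub, Matrix.smul_mul, Matrix.smul_mul, Matrix.smul_mul,
      Matrix.smul_mul, one_mul, one_mul, Matrix.mul_smul, Matrix.mul_smul, mul_one]
    module
  · have h7 : ((c ^ 2 - 1) * co w a) % 3 = 0 := by
      have := sq_mod_three hc
      obtain ⟨k, hk⟩ : (3 : ℤ) ∣ c ^ 2 - 1 := by omega
      rw [hk, mul_assoc]
      exact Int.mul_emod_right 3 _
    have h5 : ((u - 1) * co w a) % 3 = 0 := by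
      obtain ⟨k, hk⟩ : (3 : ℤ) ∣ u - 1 := by omega
      rw [hk, mul_assoc]
      exact Int.mul_emod_right 3 _
    have h6 : (c * (v - c * co w a)) % 3 = 0 := by
      obtain ⟨k, hk⟩ : (3 : ℤ) ∣ v - c * co w a := by omega
      rw [hk, mul_left_comm]
      exact Int.mul_emod_right 3 _
    have h8 : ((c * v) * (co (J a) a - 1)) % 3 = 0 := by
      have := co_J a a
      rw [if_pos rfl] at this
      obtain ⟨k, hk⟩ : (3 : ℤ) ∣ co (J a) a - 1 := by omega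
      rw [hk, mul_left_comm]
      exact Int.mul_emod_right 3 _
    have h9 : (3 ^ (j + 1) * v * co (w * J a) a) % 3 = 0 := by
      rw [pow_succ', mul_assoc, mul_assoc]
      exact Int.mul_emod_right 3 _
    rw [co_sub, co_sub, co_smul, co_smul, co_smul]
    have h10 : u * co w a - c * v * co (J a) a - 3 ^ (j + 1) * v * co (w * J a) a =
      (u - 1) * co w a - c * (v - c * co w a) - (c ^ 2 - 1) * co w a -
        (c * v) * (co (J a) a - 1) - 3 ^ (j + 1) * v * co (w * J a) a := by ring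
    rw [h10]
    omega
  · intro b hb
    have h5 : ((u - 1) * co w b) % 3 = 0 := by
      obtain ⟨k, hk⟩ : (3 : ℤ) ∣ u - 1 := by omega
      rw [hk, mul_assoc]
      exact Int.mul_emod_right 3 _
    have h8 : (c * v * co (J a) b) % 3 = 0 := by
      have := co_J a b
      rw [if_neg (Ne.symm hb)] at this
      obtain ⟨k, hk⟩ : (3 : ℤ) ∣ co (J a) b := by omega
      rw [hk, mul_left_comm]
      exact Int.mul_emod_right 3 _
    have h9 : (3 ^ (j + 1) * v * co (w * J a) b) % 3 = 0 := by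
      rw [pow_succ', mul_assoc, mul_assoc]
      exact Int.mul_emod_right 3 _
    rw [co_sub, co_sub, co_smul, co_smul, co_smul]
    have h10 : u * co w b - c * v * co (J a) b - 3 ^ (j + 1) * v * co (w * J a) b =
      co w b + (u - 1) * co w b - c * v * co (J a) b - 3 ^ (j + 1) * v * co (w * J a) b := by ring
    rw [h10]
    omega

theorem stepA {m : ℕ} (a : Fin 3) (j : ℕ) (c : ℤ) (hc : ¬ (3 : ℤ) ∣ c) (w : Mt) :
    ∃ (c' : ℤ) (w' : Mt), ¬ (3 : ℤ) ∣ c' ∧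
      (R (c' • (1 : Mt) + (3 ^ (j + 1) : ℤ) • w') - 1 ∈ E m (3 ^ j) →
        R (c • (1 : Mt) + (3 ^ (j + 1) : ℤ) • w) - 1 ∈ E m (3 ^ j)) ∧
      co w' a % 3 = 0 ∧ ∀ b, b ≠ a → co w' b % 3 = co w b % 3 := by
  obtain ⟨h, c', w', hHs, hn, hc', e, h0, h1⟩ := stepB a j c hc w
  refine ⟨c', w', hc', fun h2 => ?_, h0, h1⟩
  obtain ⟨h3, h4⟩ := Hs_mem (m := m) hHs
  refine step (h := h) hn ?_ h3 h4
  rw [e]
  exact h2

/-- If all coordinates are divisible by `3`. -/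
theorem deep (c : ℤ) (w : Mt) (j : ℕ) (g : ∀ a, co w a % 3 = 0) (hc : ¬ (3 : ℤ) ∣ c) :
    ∃ (c' : ℤ) (w' : Mt), ¬ (3 : ℤ) ∣ c' ∧
      c • (1 : Mt) + (3 ^ (j + 1) : ℤ) • w = c' • (1 : Mt) + (3 ^ (j + 1 + 1) : ℤ) • w' := by
  obtain ⟨p, q, r, s, rfl⟩ : ∃ p q r s : ℤ, w = !![p, q; r, s] :=
    ⟨_, _, _, _, Matrix.eta_fin_two w⟩
  have g0 : (r - q) % 3 = 0 := g 0
  have g1 : (p + q + r - s) % 3 = 0 := g 1
  have g2 : (p - s - q - r) % 3 = 0 := g 2
  refine ⟨c + 3 ^ (j + 1) * p, !![0, q / 3; r / 3, (s - p) / 3], ?_, ?_⟩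
  · have : (3 : ℤ) ∣ 3 ^ (j + 1) * p := Dvd.dvd.mul_right (dvd_pow_self _ (by omega)) _
    omega
  · have e1 : 3 * (q / 3) = q := by omega
    have e2 : 3 * (r / 3) = r := by omega
    have e3 : 3 * ((s - p) / 3) = s - p := by omega
    rw [Matrix.one_fin_two]
    ext i k
    fin_cases i <;> fin_cases k
    · simp
    · simp
      linear_combination (-3 ^ (j + 1) : ℤ) * e1
    · simp
      linear_combination (-3 ^ (j + 1) : ℤ) * e2
    · simp
      linear_combination (-3 ^ (j + 1) : ℤ) * e3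

/-- (K1) elements congruent to a scalar modulo `3 ^ (j + 1)` lower the filtration by `3 ^ j`. -/
theorem K1 {m : ℕ} : ∀ (n j : ℕ), m ≤ j + 1 + n → ∀ (c : ℤ) (w : Mt), ¬ (3 : ℤ) ∣ c →
    R (c • (1 : Mt) + (3 ^ (j + 1) : ℤ) • w) - 1 ∈ E m (3 ^ j) := by
  intro n
  induction n with
  | zero =>
    intro j hj c w hc
    refine mem_E_of_zero fun F hF => ?_
    have : (3 ^ (j + 1) : ℤ) • w = (3 ^ m : ℤ) • ((3 ^ (j + 1 - m) : ℤ) • w) := by
      rw [smul_smul, ← pow_add]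
      congr 2
      omega
    rw [this, LinearMap.sub_apply, R_level hc _ hF, Module.End.one_apply, sub_self]
  | succ n ih =>
    intro j hj c w hc
    obtain ⟨c₁, w₁, hc₁, h₁, e₁, -⟩ := stepA (m := m) 0 j c hc w
    obtain ⟨c₂, w₂, hc₂, h₂, e₂, f₂⟩ := stepA (m := m) 1 j c₁ hc₁ w₁
    obtain ⟨c₃, w₃, hc₃, h₃, e₃, f₃⟩ := stepA (m := m) 2 j c₂ hc₂ w₂
    refine h₁ (h₂ (h₃ ?_))
    have g : ∀ a, co w₃ a % 3 = 0 := by
      intro a
      fin_cases a
      · have := f₃ 0 (by decide)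
        have h4 := f₂ 0 (by decide)
        change co w₃ 0 % 3 = 0
        omega
      · have := f₃ 1 (by decide)
        change co w₃ 1 % 3 = 0
        omega
      · exact e₃
    obtain ⟨c', w', hc', hk⟩ := deep c₃ w₃ j g hc₃
    rw [hk]
    refine E_anti ?_ (ih (j + 1) (by omega) _ _ hc')
    exact Nat.pow_le_pow_right (by norm_num) (by omega)

theorem K1' {m : ℕ} (j : ℕ) (c : ℤ) (w : Mt) (hc : ¬ (3 : ℤ) ∣ c) :
    R (c • (1 : Mt) + (3 ^ (j + 1) : ℤ) • w) - 1 ∈ E m (3 ^ j) :=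
  K1 m j (by omega) c w hc

/-- Matrices congruent to a scalar modulo `3` preserve the filtration. -/
theorem R_mem_E {m : ℕ} (c : ℤ) (w : Mt) (hc : ¬ (3 : ℤ) ∣ c) :
    R (c • (1 : Mt) + (3 : ℤ) • w) ∈ E m 0 := by
  have h := K1' (m := m) 0 c w hc
  rw [zero_add, pow_one] at h
  have := Submodule.add_mem _ (E_anti (Nat.zero_le _) h) one_mem_E
  rwa [sub_add_cancel] at this

theorem det_ne {c : ℤ} (hc : ¬ (3 : ℤ) ∣ c) (w : Mt) :
    ¬ (3 : ℤ) ∣ (c • (1 : Mt) + (3 : ℤ) • w).det := by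
  have := det_form w 0 hc
  rwa [zero_add, pow_one] at this

theorem not_dvd_mul {a b : ℤ} (ha : ¬ (3 : ℤ) ∣ a) (hb : ¬ (3 : ℤ) ∣ b) : ¬ (3 : ℤ) ∣ a * b := by
  intro h
  rcases Int.prime_three.dvd_or_dvd h with h4 | h4
  · exact ha h4
  · exact hb h4

/-- Congruent matrices act in a congruent way. -/
theorem K1c {m : ℕ} (j : ℕ) (c' d : ℤ) (w' v : Mt)
    (hc' : ¬ (3 : ℤ) ∣ c') (hd : ¬ (3 : ℤ) ∣ d) (p q : Mt)
    (hq : q = c' • (1 : Mt) + (3 : ℤ) • w') (h : p = d • q + (3 ^ (j + 1) : ℤ) • v) :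
    R p - R q ∈ E m (3 ^ j) := by
  have hnq : ¬ (3 : ℤ) ∣ q.det := by
    rw [hq]
    exact det_ne hc' w'
  have e : R p - R q = (R (p * q.adjugate) - 1) * R q + (R p - R (p * q.adjugate) * R q) := by
    rw [sub_mul, one_mul]
    abel
  rw [e]
  refine Submodule.add_mem _ ?_ ?_
  · have h1 : p * q.adjugate = (d * q.det) • (1 : Mt) + (3 ^ (j + 1) : ℤ) • (v * q.adjugate) := by
      rw [h, add_mul, Matrix.smul_mul, Matrix.smul_mul, mul_adj, smul_smul]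
    have h2 : R (p * q.adjugate) - 1 ∈ E m (3 ^ j) := by
      rw [h1]
      exact K1' j _ _ (not_dvd_mul hd hnq)
    refine E_mul' h2 (s := 0) ?_ (by omega)
    rw [hq]
    exact R_mem_E _ _ hc'
  · refine mem_E_of_zero fun F hF => ?_
    rw [← map_mul, mul_assoc, adj_mul, map_mul, LinearMap.sub_apply, Module.End.mul_apply,
      R_int hnq hF, sub_self]

end

end KR

end LO

end Pool.Agent.Lib.MP_7c5fb9_nt
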