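import Pool.Agent.Lib.MP_7c5fb9_nt.LO.KR.B

set_option autoImplicit false

/-!
# Right translations on functions of integral matrices modulo `3`, part C:
the filtration is exhaustive
-/

namespace Pool.Agent.Lib.MP_7c5fb9_nt

namespace LO

namespace KR

noncomputable section

/-- The union of the filtration. -/
def U (m : ℕ) : Submodule (ZMod 3) Fn where
  carrier := {F | ∃ d, F ∈ Fil m d}
  add_mem' {F G} hF hG := by
    obtain ⟨d, hd⟩ := hF
    obtain ⟨e, he⟩ := hG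
    exact ⟨max d e, Submodule.add_mem _ (Fil_mono (le_max_left _ _) hd)
      (Fil_mono (le_max_right _ _) he)⟩
  zero_mem' := ⟨0, Submodule.zero_mem _⟩
  smul_mem' a F hF := by
    obtain ⟨d, hd⟩ := hF
    exact ⟨d, Submodule.smul_mem _ _ hd⟩

theorem mem_U {m : ℕ} {F : Fn} : F ∈ U m ↔ ∃ d, F ∈ Fil m d := Iff.rfl

theorem E0_U {m : ℕ} {L : Op} (hL : L ∈ E m 0) {F : Fn} (hF : F ∈ U m) : L F ∈ U m := by
  obtain ⟨d, hd⟩ := hF
  exact ⟨d, hL d F hd⟩

/-- Functions invariant modulo `U` under the matrices congruent to scalars modulo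
`3 ^ (j + 1)`. -/
def W (m j : ℕ) : Submodule (ZMod 3) Fn where
  carrier := {F | F ∈ A m ∧ ∀ (c : ℤ) (w : Mt), ¬ (3 : ℤ) ∣ c →
    R (c • (1 : Mt) + (3 ^ (j + 1) : ℤ) • w) F - F ∈ U m}
  add_mem' {F G} hF hG := by
    refine ⟨Submodule.add_mem _ hF.1 hG.1, fun c w hc => ?_⟩
    rw [map_add, add_sub_add_comm]
    exact Submodule.add_mem _ (hF.2 c w hc) (hG.2 c w hc)
  zero_mem' := ⟨Submodule.zero_mem _, fun c w hc => by
    rw [map_zero, sub_zero]
    exact Submodule.zero_mem _⟩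
  smul_mem' a F hF := by
    refine ⟨Submodule.smul_mem _ _ hF.1, fun c w hc => ?_⟩
    rw [map_smul, ← smul_sub]
    exact Submodule.smul_mem _ _ (hF.2 c w hc)

theorem W_conj {m j : ℕ} {q : Mt} (hq : R q ∈ E m 0) (hn : ¬ (3 : ℤ) ∣ q.det) {F : Fn}
    (hF : F ∈ W m j) : R q F ∈ W m j := by
  refine ⟨R_mem hn hF.1, fun c w hc => ?_⟩
  have hc' : ¬ (3 : ℤ) ∣ c * q.det := not_dvd_mul hc hn
  have hp : ¬ (3 : ℤ) ∣ (c • (1 : Mt) + (3 ^ (j + 1) : ℤ) • w).det := det_form w j hc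
  set p : Mt := c • (1 : Mt) + (3 ^ (j + 1) : ℤ) • w with hpd
  have e1 : q.adjugate * p * q = (c * q.det) • (1 : Mt) +
      (3 ^ (j + 1) : ℤ) • (q.adjugate * w * q) := by
    rw [hpd, mul_add, add_mul, Matrix.mul_smul, mul_one, Matrix.smul_mul, adj_mul, smul_smul,
      Matrix.mul_smul, Matrix.smul_mul]
  have e2 : R p (R q F) = R q (R (q.adjugate * p * q) F) := by
    have h1 : R q (R (q.adjugate * p * q) F) = R (q.det • (1 : Mt)) (R p (R q F)) := by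
      rw [← Module.End.mul_apply, ← map_mul, ← Module.End.mul_apply, ← map_mul,
        ← Module.End.mul_apply, ← map_mul, ← mul_assoc, ← mul_assoc, mul_adj, mul_assoc]
    rw [h1, R_int hn (R_mem hp (R_mem hn hF.1))]
  rw [e2, ← map_sub]
  refine E0_U hq ?_
  rw [e1]
  exact hF.2 _ _ hc'

/-- `(1 + 3 J) ^ (3 ^ j)`. -/
def hj (a : Fin 3) (j : ℕ) : Mt := qg a ^ 3 ^ j

theorem hj_form (a : Fin 3) (j : ℕ) : ∃ u v : ℤ, u % 3 = 1 ∧
    hj a j = u • (1 : Mt) + (3 ^ (j + 1) : ℤ) • (v • J a) := by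
  obtain ⟨u, v, hu, -, h⟩ := pow_form (J_sq a) j
  refine ⟨u, v, hu, ?_⟩
  rw [smul_smul]
  exact h

theorem hj_det (a : Fin 3) (j : ℕ) : ¬ (3 : ℤ) ∣ (hj a j).det := by
  obtain ⟨u, v, hu, h⟩ := hj_form a j
  rw [h]
  exact det_form _ _ (by omega)

theorem hj_mem {m : ℕ} (a : Fin 3) (j : ℕ) : R (hj a j) ∈ E m 0 :=
  (Hs_mem (a := a) (j := j) (Or.inr (Or.inl rfl))).2

/-- The operators `h - 1`. -/
def H (a : Fin 3) (j : ℕ) : Op := R (hj a j) - 1

theorem H_mem {m : ℕ} (a : Fin 3) (j : ℕ) : H a j ∈ E m 0 :=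
  E_anti (Nat.zero_le _) (Hs_mem (a := a) (j := j) (Or.inr (Or.inl rfl))).1

theorem H_apply (a : Fin 3) (j : ℕ) (F : Fn) : H a j F = R (hj a j) F - F := rfl

theorem W_H {m j : ℕ} (a : Fin 3) (i : ℕ) {F : Fn} (hF : F ∈ W m j) : H a i F ∈ W m j := by
  rw [H_apply]
  exact Submodule.sub_mem _ (W_conj (hj_mem a i) (hj_det a i) hF) hF

theorem R_adj {m : ℕ} (p p' : Mt) (hn : ¬ (3 : ℤ) ∣ p'.det) {F : Fn} (hF : F ∈ A m) :
    R (p * p'.adjugate) (R p' F) = R p F := by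
  rw [← Module.End.mul_apply, ← map_mul, mul_assoc, adj_mul, map_mul,
    Module.End.mul_apply, R_int hn hF]

theorem H_comm {m j : ℕ} (a b : Fin 3) {F : Fn} (hF : F ∈ W m (j + 1)) :
    H a j (H b j F) - H b j (H a j F) ∈ U m := by
  have e0 : H a j (H b j F) - H b j (H a j F) =
      R (hj a j * hj b j) F - R (hj b j * hj a j) F := by
    simp only [H_apply, map_sub, map_mul, Module.End.mul_apply]
    abel
  rw [e0]
  have hn : ¬ (3 : ℤ) ∣ (hj b j * hj a j).det := by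
    rw [Matrix.det_mul]
    exact not_dvd_mul (hj_det b j) (hj_det a j)
  have e1 : R (hj a j * hj b j) F =
      R (hj a j * hj b j * (hj b j * hj a j).adjugate) (R (hj b j * hj a j) F) :=
    (R_adj _ _ hn hF.1).symm
  rw [e1]
  obtain ⟨u, v, -, h⟩ := hj_form a j
  obtain ⟨u', v', -, h'⟩ := hj_form b j
  have e2 : hj a j * hj b j = hj b j * hj a j + (3 ^ (j + 1 + 1) : ℤ) •
      ((3 ^ j * (v * v') : ℤ) • (J a * J b - J b * J a)) := by
    obtain ⟨p, hp⟩ : ∃ p : ℤ, p = 3 ^ (j + 1) := ⟨_, rfl⟩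
    have hp2 : (3 ^ (j + 1 + 1) : ℤ) • ((3 ^ j * (v * v') : ℤ) • (J a * J b - J b * J a)) =
        (p * p * (v * v')) • (J a * J b - J b * J a) := by
      rw [smul_smul, hp]
      congr 1
      ring
    rw [hp2, h, h', ← hp]
    have f1 : ∀ (s t r r' : ℤ) (x y : Mt), (s • (1 : Mt) + p • (r • x)) *
        (t • (1 : Mt) + p • (r' • y)) = (s * t) • (1 : Mt) + (s * (p * r')) • y +
          (t * (p * r)) • x + (p * p * (r * r')) • (x * y) := by
      intro s t r r' x y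
      rw [add_mul, mul_add, mul_add, Matrix.smul_mul, one_mul, Matrix.smul_mul, one_mul,
        Matrix.mul_smul, mul_one, Matrix.mul_smul, Matrix.mul_smul, Matrix.smul_mul,
        Matrix.smul_mul]
      module
    rw [f1, f1]
    module
  have e3 : hj a j * hj b j * (hj b j * hj a j).adjugate = (hj b j * hj a j).det • (1 : Mt) +
      (3 ^ (j + 1 + 1) : ℤ) • (((3 ^ j * (v * v') : ℤ) • (J a * J b - J b * J a)) *
        (hj b j * hj a j).adjugate) := by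
    conv_lhs => rw [e2]
    rw [add_mul, mul_adj, Matrix.smul_mul]
  rw [e3]
  have hm : R (hj b j * hj a j) ∈ E m 0 := by
    rw [map_mul]
    exact E_mul' (hj_mem b j) (hj_mem a j) (by omega)
  exact (W_conj hm hn hF).2 _ _ hn

theorem H_cube {m j : ℕ} (a : Fin 3) {F : Fn} (hF : F ∈ W m (j + 1)) :
    H a j (H a j (H a j F)) ∈ U m := by
  have e : H a j (H a j (H a j F)) = R (hj a (j + 1)) F - F := by
    have h1 := sub_one_pow (g := R (hj a j)) 1
    have h2 : R (hj a (j + 1)) = R (hj a j) ^ 3 ^ 1 := by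
      rw [← map_pow, hj, hj, ← pow_mul]
      congr 2
    have h3 : H a j (H a j (H a j F)) = (H a j ^ 3 ^ 1) F := rfl
    rw [h3, H, ← h1, h2]
    rfl
  rw [e]
  obtain ⟨u, v, hu, h⟩ := hj_form a (j + 1)
  rw [h]
  exact hF.2 _ _ (by omega)

theorem kill {m j : ℕ} (a : Fin 3) (S : Finset (Fin 3)) {F : Fn} (hF : F ∈ W m (j + 1))
    (hU : F ∉ U m) (hS : ∀ b ∈ S, H b j F ∈ U m) :
    ∃ F' ∈ W m (j + 1), F' ∉ U m ∧ ∀ b ∈ insert a S, H b j F' ∈ U m := by
  have key : ∀ G : Fn, G ∈ W m (j + 1) → (∀ b ∈ S, H b j G ∈ U m) →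
      ∀ b ∈ S, H b j (H a j G) ∈ U m := by
    intro G hG hb b hbS
    have h1 := H_comm b a hG
    have h2 := E0_U (H_mem (m := m) a j) (hb b hbS)
    have := Submodule.add_mem _ h1 h2
    rwa [sub_add_cancel] at this
  by_cases h1 : H a j F ∈ U m
  · refine ⟨F, hF, hU, fun b hb => ?_⟩
    rcases Finset.mem_insert.mp hb with rfl | hb
    · exact h1
    · exact hS b hb
  by_cases h2 : H a j (H a j F) ∈ U m
  · refine ⟨H a j F, W_H a j hF, h1, fun b hb => ?_⟩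
    rcases Finset.mem_insert.mp hb with rfl | hb
    · exact h2
    · exact key F hF hS b hb
  · refine ⟨H a j (H a j F), W_H a j (W_H a j hF), h2, fun b hb => ?_⟩
    rcases Finset.mem_insert.mp hb with rfl | hb
    · exact H_cube b hF
    · exact key _ (W_H a j hF) (key F hF hS) b hb

theorem R_form_mem {m : ℕ} (j : ℕ) (c : ℤ) (w : Mt) (hc : ¬ (3 : ℤ) ∣ c) :
    R (c • (1 : Mt) + (3 ^ (j + 1) : ℤ) • w) ∈ E m 0 := by
  have : (3 ^ (j + 1) : ℤ) • w = (3 : ℤ) • ((3 ^ j : ℤ) • w) := by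
    rw [smul_smul, pow_succ']
  rw [this]
  exact R_mem_E c _ hc

theorem down {m j : ℕ} {F : Fn} (hF : F ∈ W m (j + 1)) (hH : ∀ a, H a j F ∈ U m) :
    F ∈ W m j := by
  refine ⟨hF.1, fun c w hc => ?_⟩
  -- one step
  have st : ∀ (a : Fin 3) (h k : Mt), Hs a j h → ¬ (3 : ℤ) ∣ h.det →
      R (k * h.adjugate) ∈ E m 0 →
      R (k * h.adjugate) F - F ∈ U m → R k F - F ∈ U m := by
    intro a h k hHs hn h0 h1
    have h2 : R h F - F ∈ U m := by
      have h3 : R (qg a ^ 3 ^ j) F - F ∈ U m := hH a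
      rcases hHs with rfl | rfl | rfl
      · rw [map_one, Module.End.one_apply, sub_self]
        exact Submodule.zero_mem _
      · exact h3
      · have : R (qg a ^ 3 ^ j * qg a ^ 3 ^ j) F - F =
            R (qg a ^ 3 ^ j) (R (qg a ^ 3 ^ j) F - F) + (R (qg a ^ 3 ^ j) F - F) := by
          rw [map_mul, Module.End.mul_apply, map_sub]
          abel
        rw [this]
        exact Submodule.add_mem _ (E0_U (hj_mem a j) h3) h3
    have e : R k F - F = R (k * h.adjugate) (R h F - F) + (R (k * h.adjugate) F - F) := by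
      have : R (k * h.adjugate) (R h F) = R k F := R_adj k h hn hF.1
      rw [map_sub, this]
      abel
    rw [e]
    exact Submodule.add_mem _ (E0_U h0 h2) h1
  obtain ⟨h₁, c₁, w₁, s₁, n₁, hc₁, k₁, e₁, -⟩ := stepB 0 j c hc w
  obtain ⟨h₂, c₂, w₂, s₂, n₂, hc₂, k₂, e₂, f₂⟩ := stepB 1 j c₁ hc₁ w₁
  obtain ⟨h₃, c₃, w₃, s₃, n₃, hc₃, k₃, e₃, f₃⟩ := stepB 2 j c₂ hc₂ w₂
  refine st 0 h₁ _ s₁ n₁ ?_ ?_
  · rw [k₁]
    exact R_form_mem j _ _ hc₁
  rw [k₁]
  refine st 1 h₂ _ s₂ n₂ ?_ ?_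
  · rw [k₂]
    exact R_form_mem j _ _ hc₂
  rw [k₂]
  refine st 2 h₃ _ s₃ n₃ ?_ ?_
  · rw [k₃]
    exact R_form_mem j _ _ hc₃
  rw [k₃]
  have g : ∀ a, co w₃ a % 3 = 0 := by
    intro a
    fin_cases a
    · have := f₃ 0 (by decide)
      have h4 := f₂ 0 (by decide)
      change co w₃ 0 % 3 = 0
      omega
    · have := f₃ 1 (by decide)
      change co w₃ 1 % 3 = 0
      omega
    · exact e₃
  obtain ⟨c', w', hc', hk⟩ := deep c₃ w₃ j g hc₃
  rw [hk]
  exact hF.2 _ _ hc'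

theorem descend {m : ℕ} : ∀ n j : ℕ, m ≤ j + 1 + n → (∃ F ∈ A m, F ∉ U m) →
    ∃ F ∈ W m j, F ∉ U m := by
  intro n
  induction n with
  | zero =>
    rintro j hj ⟨F, hF, hU⟩
    refine ⟨F, ⟨hF, fun c w hc => ?_⟩, hU⟩
    have : (3 ^ (j + 1) : ℤ) • w = (3 ^ m : ℤ) • ((3 ^ (j + 1 - m) : ℤ) • w) := by
      rw [smul_smul, ← pow_add]
      congr 2
      omega
    rw [this, R_level hc _ hF, sub_self]
    exact Submodule.zero_mem _
  | succ n ih =>
    intro j hj hex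
    obtain ⟨F, hF, hU⟩ := ih (j + 1) (by omega) hex
    obtain ⟨F₁, w₁, u₁, s₁⟩ := kill 0 ∅ hF hU (by simp)
    obtain ⟨F₂, w₂, u₂, s₂⟩ := kill 1 _ w₁ u₁ s₁
    obtain ⟨F₃, w₃, u₃, s₃⟩ := kill 2 _ w₂ u₂ s₂
    refine ⟨F₃, down w₃ fun a => s₃ a ?_, u₃⟩
    fin_cases a <;> simp

/-- (K2) the filtration is exhaustive. -/
theorem K2 {m : ℕ} {F : Fn} (hF : F ∈ A m) : ∃ d, F ∈ Fil m d := by
  by_contra hne
  obtain ⟨G, hG, hU⟩ := descend m 0 (by omega) ⟨F, hF, hne⟩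
  refine hU ?_
  have h1 : ∀ a, X a G ∈ U m := by
    intro a
    have := hG.2 1 (J a) (by decide)
    rw [zero_add, pow_one, one_smul] at this
    exact this
  obtain ⟨d₀, h₀⟩ := h1 0
  obtain ⟨d₁, h₁⟩ := h1 1
  obtain ⟨d₂, h₂⟩ := h1 2
  refine ⟨max d₀ (max d₁ d₂) + 1, mem_Fil_succ.mpr ⟨hG.1, fun a => ?_⟩⟩
  fin_cases a
  · exact Fil_mono (le_max_left _ _) h₀
  · exact Fil_mono ((le_max_left _ _).trans (le_max_right _ _)) h₁
  · exact Fil_mono ((le_max_right _ _).trans (le_max_right _ _)) h₂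

/-! ### Invariant functions -/

theorem R_fix {m : ℕ} {G : Fn} (hG : G ∈ Fil m 1) (c : ℤ) (w : Mt) (hc : ¬ (3 : ℤ) ∣ c) :
    R (c • (1 : Mt) + (3 : ℤ) • w) G = G := by
  have h := K1' (m := m) 0 c w hc
  rw [zero_add, pow_one, pow_zero] at h
  have h2 := h 0 G hG
  have h3 : R (c • (1 : Mt) + (3 : ℤ) • w) G - G = 0 := h2
  exact sub_eq_zero.mp h3

/-- (K3) The invariant functions are the functions of level `3`. -/
theorem mem_Fil_one {m : ℕ} {G : Fn} (hG : G ∈ Fil m 1) : G ∈ A 1 := by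
  have hL := mem_A.mp (Fil_le_A hG)
  refine ⟨fun M N => ?_, hL.scal, hL.supp⟩
  rw [pow_one]
  by_cases hd : (3 : ℤ) ∣ M.det
  · have hd' : (3 : ℤ) ∣ (M + (3 : ℤ) • N).det := by
      have : (M + (3 : ℤ) • N).det = M.det + 3 * (M 0 0 * N 1 1 + N 0 0 * M 1 1 -
          M 0 1 * N 1 0 - N 0 1 * M 1 0 + 3 * N.det) := by
        simp only [Matrix.det_fin_two, Matrix.add_apply, Matrix.smul_apply, smul_eq_mul]
        ring
      rw [this]
      exact dvd_add hd (Dvd.intro _ rfl)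
    rw [hL.supp _ hd, hL.supp _ hd']
  · have h1 : G (M.det • (M + (3 : ℤ) • N)) = G (M.det • M) := by
      have : M.det • (M + (3 : ℤ) • N) = M * (M.det • (1 : Mt) + (3 : ℤ) • (M.adjugate * N)) := by
        rw [mul_add, Matrix.mul_smul, mul_one, Matrix.mul_smul, ← mul_assoc, mul_adj,
          Matrix.smul_mul, one_mul, smul_add, smul_smul, smul_smul, mul_comm (3 : ℤ)]
      rw [this, hL.scal _ M hd]
      have h2 := R_fix hG M.det (M.adjugate * N) hd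
      exact congrFun h2 M
    rwa [hL.scal _ _ hd, hL.scal _ _ hd] at h1

theorem Fil_one {m : ℕ} (hm : 1 ≤ m) : Fil m 1 = A 1 := by
  refine le_antisymm (fun G hG => mem_Fil_one hG) (fun G hG => ?_)
  rw [mem_Fil_succ]
  refine ⟨A_mono hm hG, fun a => ?_⟩
  change X a G = 0
  unfold X
  rw [LinearMap.sub_apply, Module.End.one_apply, sub_eq_zero]
  have := R_level (c := 1) (m := 1) (by decide) (J a) hG
  rwa [one_smul, pow_one] at this

end

end KR

end LO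

end Pool.Agent.Lib.MP_7c5fb9_nt
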