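import Pool.Agent.Lib.MP_7c5fb9_nt.LO.Stmts
import Pool.Agent.Lib.MP_7c5fb9_nt.LO.KR.C

set_option autoImplicit false

/-!
# Right translations: the bridge to the definitions of the project
-/

namespace Pool.Agent.Lib.MP_7c5fb9_nt

namespace LO

namespace KR

theorem gm_eq (i : Fin 3) : gm i = qg i := by
  fin_cases i <;> (unfold qg; rw [Matrix.one_fin_two]; ext a b; fin_cases a <;> fin_cases b <;>
    simp [gm, J])

theorem xm_eq (i : Fin 3) : xm i = J i := by
  fin_cases i <;> rfl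

theorem lev_iff (m : ℕ) (v : Mat → ZMod 3) : MF m v ↔ v ∈ A m := by
  rw [mem_A]
  exact ⟨fun h => ⟨h.per, h.scal, h.supp⟩, fun h => ⟨h.per, h.scal, h.supp⟩⟩

theorem Rt_eq (k : Mat) (v : Mat → ZMod 3) : Rt k v = R k v := rfl

theorem Xd_eq (i : Fin 3) (v : Mat → ZMod 3) : Xd i v = X i v := by
  ext M
  unfold Xd X
  rw [gm_eq]
  rfl

theorem fil_iff (m : ℕ) : ∀ (d : ℕ) (v : Mat → ZMod 3), v ∈ A m → (LO.Fil d v ↔ v ∈ KR.Fil m d) := by
  intro d
  induction d with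
  | zero => exact fun v _ => Iff.rfl
  | succ d ih =>
    intro v hv
    rw [mem_Fil_succ]
    constructor
    · intro h
      refine ⟨hv, fun a => ?_⟩
      have := h a
      rw [Xd_eq] at this
      exact (ih _ (X_mem a hv)).mp this
    · rintro ⟨-, h⟩ a
      rw [Xd_eq]
      exact (ih _ (X_mem a hv)).mpr (h a)

/-- All translations preserve the filtration. -/
theorem R_fil {m : ℕ} {h : Mt} (hh : ¬ (3 : ℤ) ∣ h.det) : ∀ (n : ℕ) (v : Fn), v ∈ KR.Fil m n →
    R h v ∈ KR.Fil m n := by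
  intro n
  induction n with
  | zero =>
    intro v hv
    have : v = 0 := hv
    rw [this, map_zero]
    exact Submodule.zero_mem _
  | succ n ih =>
    intro v hv
    have hA := Fil_le_A hv
    rw [mem_Fil_succ]
    refine ⟨R_mem hh hA, fun a => ?_⟩
    have e1 : h.adjugate * qg a * h = h.det • (1 : Mt) + (3 : ℤ) • (h.adjugate * J a * h) := by
      unfold qg
      rw [mul_add, add_mul, mul_one, adj_mul, Matrix.mul_smul, Matrix.smul_mul]
    have e2 : R (qg a) (R h v) = R h (R (h.adjugate * qg a * h) v) := by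
      have h1 : R h (R (h.adjugate * qg a * h) v) = R (h.det • (1 : Mt)) (R (qg a) (R h v)) := by
        rw [← Module.End.mul_apply, ← map_mul, ← Module.End.mul_apply, ← map_mul,
          ← Module.End.mul_apply, ← map_mul, ← mul_assoc, ← mul_assoc, mul_adj, mul_assoc]
      rw [h1, R_int hh (R_mem (det_qg a) (R_mem hh hA))]
    have e3 : X a (R h v) = R h ((R (h.adjugate * qg a * h) - 1) v) := by
      rw [X, LinearMap.sub_apply, Module.End.one_apply, e2, LinearMap.sub_apply,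
        Module.End.one_apply, map_sub]
    rw [e3]
    refine ih _ ?_
    rw [e1]
    have h4 := K1' (m := m) 0 h.det (h.adjugate * J a * h) hh
    rw [zero_add, pow_one] at h4
    exact h4 n v (by rwa [pow_zero])

/-- Commutators. -/
theorem comm_mem {m : ℕ} (a b : Fin 3) : X a * X b - X b * X a ∈ E m 3 := by
  have e : X a * X b - X b * X a = R (qg a * qg b) - R (qg b * qg a) := by
    rw [map_mul, map_mul, R_qg, R_qg]
    noncomm_ring
  rw [e]
  refine K1c 1 1 1 (J b + J a + (3 : ℤ) • (J b * J a)) (J a * J b - J b * J a) (by decide)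
    (by decide) _ _ ?_ ?_
  · unfold qg
    rw [add_mul, mul_add, mul_add, one_mul, one_mul, mul_one, Matrix.smul_mul, Matrix.mul_smul,
      smul_add, smul_add, one_smul]
    abel
  · unfold qg
    rw [add_mul, mul_add, mul_add, one_mul, one_mul, mul_one, Matrix.smul_mul, Matrix.mul_smul,
      add_mul, mul_add, mul_add, one_mul, one_mul, mul_one, Matrix.smul_mul, Matrix.mul_smul,
      one_smul]
    module

/-- The powers `g ^ r`, `r = 0, 1, 2`, to first order. -/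
theorem pow_first {m : ℕ} (a : Fin 3) (r : ℕ) :
    R (qg a ^ r) - 1 - (r : ZMod 3) • X a ∈ E m 2 := by
  induction r with
  | zero =>
    rw [pow_zero, map_one, sub_self, Nat.cast_zero, zero_smul, sub_zero]
    exact Submodule.zero_mem _
  | succ r ih =>
    have e : R (qg a ^ (r + 1)) - 1 - ((r + 1 : ℕ) : ZMod 3) • X a =
        (R (qg a ^ r) - 1 - (r : ZMod 3) • X a) * R (qg a) + (r : ZMod 3) • (X a * X a) := by
      rw [pow_succ, map_mul, Nat.cast_succ, add_smul, one_smul, sub_mul, sub_mul, one_mul,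
        smul_mul_assoc, R_qg a, mul_add, mul_add, mul_one, mul_one, smul_add]
      abel
    rw [e]
    exact Submodule.add_mem _ (E_mul' ih (R_qg_mem a) (by omega))
      (Submodule.smul_mem _ _ (E_mul' (X_mem_E a) (X_mem_E a) (by omega)))

theorem pow_E0 {m : ℕ} (a : Fin 3) (r : ℕ) : R (qg a ^ r) ∈ E m 0 := by
  rw [map_pow]
  have := E_pow (m := m) (R_qg_mem a) r
  rwa [mul_zero] at this

theorem qg_pow (a : Fin 3) (r : ℕ) : ∃ w : Mt, qg a ^ r = 1 + (3 * r : ℤ) • J a + (9 : ℤ) • w := by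
  induction r with
  | zero => exact ⟨0, by simp⟩
  | succ r ih =>
    obtain ⟨w, hw⟩ := ih
    refine ⟨w + (3 : ℤ) • (w * J a) + (r * sq a : ℤ) • (1 : Mt), ?_⟩
    rw [pow_succ, hw]
    unfold qg
    rw [mul_add, mul_one, Matrix.mul_smul, add_mul, add_mul, one_mul, Matrix.smul_mul,
      Matrix.smul_mul, J_sq]
    push_cast
    module

theorem prod_first (a b : ℤ) (x y z t : Mt) : ∃ w : Mt,
    (1 + (3 * a : ℤ) • x + (9 : ℤ) • z) * (1 + (3 * b : ℤ) • y + (9 : ℤ) • t) =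
      1 + (3 : ℤ) • (a • x + b • y) + (9 : ℤ) • w := by
  refine ⟨t + z + (a * b) • (x * y) + (3 * a) • (x * t) + (3 * b) • (z * y) +
    (9 : ℤ) • (z * t), ?_⟩
  rw [mul_add, mul_add, mul_one, Matrix.mul_smul, Matrix.mul_smul, add_mul, add_mul,
    add_mul, add_mul, one_mul, one_mul, Matrix.smul_mul, Matrix.smul_mul, Matrix.smul_mul,
    Matrix.smul_mul]
  module

theorem prod_E {m : ℕ} {A B P Q : Op} (hA : A - 1 - P ∈ E m 2) (hB : B - 1 - Q ∈ E m 2)
    (hP : P ∈ E m 1) (hQ : Q ∈ E m 1) : A * B - 1 - (P + Q) ∈ E m 2 := by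
  have e1 : A * B - 1 - (P + Q) = (A - 1 - P) * B + (1 + P) * (B - 1 - Q) + P * Q := by
    simp only [sub_mul, add_mul, mul_sub, one_mul, mul_one]
    abel
  have hQ' : 1 + Q ∈ E m 0 := Submodule.add_mem _ one_mem_E (E_anti (by omega) hQ)
  have hP' : 1 + P ∈ E m 0 := Submodule.add_mem _ one_mem_E (E_anti (by omega) hP)
  have hB' : B ∈ E m 0 := by
    have h := Submodule.add_mem _ (E_anti (Nat.zero_le 2) hB) hQ'
    have e2 : B - 1 - Q + (1 + Q) = B := by abel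
    rwa [e2] at h
  rw [e1]
  exact Submodule.add_mem _ (Submodule.add_mem _ (E_mul' hA hB' (by omega))
    (E_mul' hP' hB (by omega))) (E_mul' hP hQ (by omega))

/-- Three factors, with small exponents. -/
theorem triple (r : Fin 3 → ℕ) : ∃ w : Mt, qg 0 ^ r 0 * qg 1 ^ r 1 * qg 2 ^ r 2 =
    1 + (3 : ℤ) • ∑ i, (r i : ℤ) • J i + (9 : ℤ) • w := by
  obtain ⟨w₀, h₀⟩ := qg_pow 0 (r 0)
  obtain ⟨w₁, h₁⟩ := qg_pow 1 (r 1)
  obtain ⟨w₂, h₂⟩ := qg_pow 2 (r 2)
  obtain ⟨w', hw'⟩ := prod_first (r 0) (r 1) (J 0) (J 1) w₀ w₁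
  obtain ⟨y, hy⟩ : ∃ y : Mt, y = (r 0 : ℤ) • J 0 + (r 1 : ℤ) • J 1 := ⟨_, rfl⟩
  obtain ⟨w, hw⟩ := prod_first 1 (r 2) y (J 2) w' w₂
  rw [mul_one, one_smul] at hw
  rw [← hy] at hw'
  refine ⟨w, ?_⟩
  rw [h₀, h₁, hw', h₂, hw, Fin.sum_univ_three, hy]

/-- First order expansion. -/
theorem first {m : ℕ} (c : ℤ) (e : Fin 3 → ℤ) (N : Mt) (hc : ¬ (3 : ℤ) ∣ c) :
    R (c • ((1 : Mt) + (3 : ℤ) • ∑ i, e i • J i) + (9 : ℤ) • N) - 1 -
      ∑ i, (e i : ZMod 3) • X i ∈ E m 2 := by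
  -- natural exponents
  obtain ⟨r, hr⟩ : ∃ r : Fin 3 → ℕ, ∀ i, (3 : ℤ) ∣ e i - r i := by
    refine ⟨fun i => (e i % 3).toNat, fun i => ?_⟩
    have : ((e i % 3).toNat : ℤ) = e i % 3 := Int.toNat_of_nonneg (Int.emod_nonneg _ (by norm_num))
    rw [this]
    omega
  choose q hq using hr
  have hcast : ∀ i, (e i : ZMod 3) = (r i : ZMod 3) := by
    intro i
    have h1 : e i = r i + 3 * q i := by
      have := hq i
      linarith
    rw [h1]
    push_cast
    have : (3 : ZMod 3) = 0 := by decide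
    rw [this, zero_mul, add_zero]
  obtain ⟨w, hw⟩ := triple r
  obtain ⟨h, hh⟩ : ∃ h : Mt, h = qg 0 ^ r 0 * qg 1 ^ r 1 * qg 2 ^ r 2 := ⟨_, rfl⟩
  rw [← hh] at hw
  have hE : R (c • ((1 : Mt) + (3 : ℤ) • ∑ i, e i • J i) + (9 : ℤ) • N) - R h ∈ E m 3 := by
    refine K1c 1 1 c (∑ i, (r i : ℤ) • J i + (3 : ℤ) • w) (c • (∑ i, q i • J i - w) + N)
      (by decide) hc _ _ ?_ ?_
    · rw [hw, one_smul]
      module
    · have h6 : ∑ i, e i • J i = ∑ i, (r i : ℤ) • J i + (3 : ℤ) • ∑ i, q i • J i := by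
        rw [Finset.smul_sum, ← Finset.sum_add_distrib]
        refine Finset.sum_congr rfl fun i _ => ?_
        have h7 : e i = r i + 3 * q i := by
          have := hq i
          linarith
        rw [smul_smul, ← add_smul, ← h7]
      rw [h6, hw]
      module
  have hE2 := E_anti (show 2 ≤ 3 by omega) hE
  have p0 := pow_first (m := m) 0 (r 0)
  have p1 := pow_first (m := m) 1 (r 1)
  have p2 := pow_first (m := m) 2 (r 2)
  have x0 : (r 0 : ZMod 3) • X 0 ∈ E m 1 := Submodule.smul_mem _ _ (X_mem_E 0)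
  have x1 : (r 1 : ZMod 3) • X 1 ∈ E m 1 := Submodule.smul_mem _ _ (X_mem_E 1)
  have x2 : (r 2 : ZMod 3) • X 2 ∈ E m 1 := Submodule.smul_mem _ _ (X_mem_E 2)
  have s1 := prod_E p0 p1 x0 x1
  have s2 := prod_E s1 p2 (Submodule.add_mem _ x0 x1) x2
  have hfin := Submodule.add_mem _ hE2 s2
  have e9 : R (c • ((1 : Mt) + (3 : ℤ) • ∑ i, e i • J i) + (9 : ℤ) • N) - 1 -
      ∑ i, (e i : ZMod 3) • X i = R (c • ((1 : Mt) + (3 : ℤ) • ∑ i, e i • J i) + (9 : ℤ) • N) -
      R h + (R (qg 0 ^ r 0) * R (qg 1 ^ r 1) * R (qg 2 ^ r 2) - 1 -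
        ((r 0 : ZMod 3) • X 0 + (r 1 : ZMod 3) • X 1 + (r 2 : ZMod 3) • X 2)) := by
    rw [hh, map_mul, map_mul, Fin.sum_univ_three (fun i => (e i : ZMod 3) • X i), hcast 0,
      hcast 1, hcast 2]
    abel
  rw [e9]
  exact hfin

end KR

end LO

end Pool.Agent.Lib.MP_7c5fb9_nt
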