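import Pool.Agent.Lib.MP_7c5fb9_nt.LO.KR.W

set_option autoImplicit false

/-!
# Right translations: conjugation of the difference operators
-/

namespace Pool.Agent.Lib.MP_7c5fb9_nt

namespace LO

namespace KR

noncomputable section

theorem first1 {m : ℕ} (c e : ℤ) (b : Fin 3) (N : Mt) (hc : ¬ (3 : ℤ) ∣ c) :
    R (c • ((1 : Mt) + (3 : ℤ) • e • J b) + (9 : ℤ) • N) - 1 - (e : ZMod 3) • X b ∈ E m 2 := by
  have h := first (m := m) c (Pi.single b e) N hc
  have e1 : ∑ i, (Pi.single b e : Fin 3 → ℤ) i • J i = e • J b := by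
    rw [Finset.sum_eq_single b]
    · rw [Pi.single_eq_same]
    · intro i _ hi
      rw [Pi.single_eq_of_ne hi, zero_smul]
    · intro h
      exact absurd (Finset.mem_univ b) h
  have e2 : ∑ i, (((Pi.single b e : Fin 3 → ℤ) i : ℤ) : ZMod 3) • X i = (e : ZMod 3) • X b := by
    rw [Finset.sum_eq_single b]
    · rw [Pi.single_eq_same]
    · intro i _ hi
      rw [Pi.single_eq_of_ne hi, Int.cast_zero, zero_smul]
    · intro h
      exact absurd (Finset.mem_univ b) h
  rw [e1, e2] at h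
  exact h

/-- `X_a R_h = R_h (R_k - 1)`. -/
theorem X_R {m : ℕ} {h : Mt} (hh : ¬ (3 : ℤ) ∣ h.det) (a : Fin 3) {v : Fn} (hv : v ∈ A m) :
    X a (R h v) = R h ((R (h.adjugate * qg a * h) - 1) v) := by
  have e2 : R (qg a) (R h v) = R h (R (h.adjugate * qg a * h) v) := by
    have h1 : R h (R (h.adjugate * qg a * h) v) = R (h.det • (1 : Mt)) (R (qg a) (R h v)) := by
      rw [← Module.End.mul_apply, ← map_mul, ← Module.End.mul_apply, ← map_mul,
        ← Module.End.mul_apply, ← map_mul, ← mul_assoc, ← mul_assoc, mul_adj, mul_assoc]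
    rw [h1, R_int hh (R_mem (det_qg a) (R_mem hh hv))]
  rw [X, LinearMap.sub_apply, Module.End.one_apply, e2, LinearMap.sub_apply,
    Module.End.one_apply, map_sub]

/-- Conjugation of words, up to terms of higher order. -/
theorem Wd_R {m : ℕ} {h : Mt} (hh : ¬ (3 : ℤ) ∣ h.det) (σ : Fin 3 → Fin 3) (e : Fin 3 → ℤ)
    (hk : ∀ a, ∃ N : Mt, h.adjugate * qg a * h =
      h.det • ((1 : Mt) + (3 : ℤ) • e a • J (σ a)) + (9 : ℤ) • N) :
    ∀ (l : List (Fin 3)) (n : ℕ) (v : Fn), v ∈ KR.Fil m (n + l.length + 1) →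
      Wd l (R h v) - (l.map fun a => (e a : ZMod 3)).prod • R h (Wd (l.map σ) v) ∈
        KR.Fil m n := by
  intro l
  induction l with
  | nil =>
    intro n v _
    simp only [Wd_nil, List.map_nil, List.prod_nil, one_smul, Module.End.one_apply, sub_self]
    exact Submodule.zero_mem _
  | cons a l ih =>
    intro n v hv
    rw [List.length_cons] at hv
    have h1 := ih (n + 1) v (by rwa [show n + 1 + l.length + 1 = n + (l.length + 1) + 1 by omega])
    obtain ⟨z, hz⟩ : ∃ z, z = Wd l (R h v) -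
      (l.map fun a => (e a : ZMod 3)).prod • R h (Wd (l.map σ) v) := ⟨_, rfl⟩
    rw [← hz] at h1
    have h2 : Wd l (R h v) = (l.map fun a => (e a : ZMod 3)).prod • R h (Wd (l.map σ) v) + z := by
      rw [hz]
      abel
    have hu : Wd (l.map σ) v ∈ KR.Fil m (n + 2) := by
      refine Wd_fil (n := l.length) ?_ _ (by simp)
      rwa [show n + 2 + l.length = n + (l.length + 1) + 1 by omega]
    obtain ⟨u, hu'⟩ : ∃ u, u = Wd (l.map σ) v := ⟨_, rfl⟩
    obtain ⟨N, hN⟩ := hk a
    have h3 : (R (h.adjugate * qg a * h) - 1 - (e a : ZMod 3) • X (σ a)) u ∈ KR.Fil m n := by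
      rw [hN]
      rw [hu']
      exact first1 (m := m) h.det (e a) (σ a) N hh n _ hu
    rw [Wd_cons, Module.End.mul_apply, h2, map_add, map_smul, ← hu', X_R (m := m) hh a
      (by rw [hu']; exact Fil_le_A hu), List.map_cons, List.map_cons, List.prod_cons, Wd_cons,
      Module.End.mul_apply, ← hu']
    have h4 : (l.map fun a => (e a : ZMod 3)).prod • R h ((R (h.adjugate * qg a * h) - 1) u) +
        X a z - ((e a : ZMod 3) * (l.map fun a => (e a : ZMod 3)).prod) • R h (X (σ a) u) =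
        (l.map fun a => (e a : ZMod 3)).prod •
          R h ((R (h.adjugate * qg a * h) - 1 - (e a : ZMod 3) • X (σ a)) u) + X a z := by
      rw [LinearMap.sub_apply _ ((e a : ZMod 3) • X (σ a)), map_sub, LinearMap.smul_apply,
        map_smul]
      module
    rw [h4]
    exact Submodule.add_mem _ (Submodule.smul_mem _ _ (R_fil hh n _ h3))
      ((mem_Fil_succ.mp h1).2 a)

theorem Wd_R' {m : ℕ} {h : Mt} (hh : ¬ (3 : ℤ) ∣ h.det) (σ : Fin 3 → Fin 3) (e : Fin 3 → ℤ)
    (hk : ∀ a, ∃ N : Mt, h.adjugate * qg a * h =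
      h.det • ((1 : Mt) + (3 : ℤ) • e a • J (σ a)) + (9 : ℤ) • N)
    (l : List (Fin 3)) (v : Fn) (hv : v ∈ KR.Fil m (l.length + 1)) :
    Wd l (R h v) = (l.map fun a => (e a : ZMod 3)).prod • R h (Wd (l.map σ) v) := by
  have := Wd_R hh σ e hk l 0 v (by rwa [zero_add])
  exact sub_eq_zero.mp this

end

end KR

end LO

end Pool.Agent.Lib.MP_7c5fb9_nt
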