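import Pool.Agent.Lib.MP_7c5fb9_nt.LO.KR.D

set_option autoImplicit false

/-!
# Right translations: words, and stability of the relations
-/

namespace Pool.Agent.Lib.MP_7c5fb9_nt

namespace LO

namespace KR

noncomputable section

/-- Products of the operators `X, Y, Z`. -/
def Wd (l : List (Fin 3)) : Op := (l.map X).prod

@[simp] theorem Wd_nil : Wd [] = 1 := rfl

theorem Wd_cons (a : Fin 3) (l : List (Fin 3)) : Wd (a :: l) = X a * Wd l := by
  simp [Wd]

theorem Wd_append (l l' : List (Fin 3)) : Wd (l ++ l') = Wd l * Wd l' := by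
  simp [Wd]

theorem Wd_replicate (n : ℕ) (a : Fin 3) : Wd (List.replicate n a) = X a ^ n := by
  simp [Wd]

theorem Wd_mem {m : ℕ} (l : List (Fin 3)) : Wd l ∈ E m l.length := by
  induction l with
  | nil => exact one_mem_E
  | cons a l ih =>
    rw [Wd_cons, List.length_cons]
    exact E_mul' (X_mem_E a) ih (by omega)

theorem Wd_perm {m : ℕ} {l l' : List (Fin 3)} (h : l.Perm l') :
    Wd l - Wd l' ∈ E m (l.length + 1) := by
  induction h with
  | nil =>
    rw [sub_self]
    exact Submodule.zero_mem _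
  | cons a h ih =>
    rw [Wd_cons, Wd_cons, ← mul_sub, List.length_cons]
    exact E_mul' (X_mem_E a) ih (by omega)
  | swap a b l =>
    rw [Wd_cons, Wd_cons, Wd_cons, Wd_cons, ← mul_assoc, ← mul_assoc, ← sub_mul]
    exact E_mul' (comm_mem _ _) (Wd_mem l) (by simp only [List.length_cons]; omega)
  | trans h h' ih ih' =>
    rw [← sub_add_sub_cancel]
    refine Submodule.add_mem _ ih ?_
    rw [h.length_eq]
    exact ih'

theorem E_zero {m d : ℕ} {L : Op} (hL : L ∈ E m d) {F : Fn} (hF : F ∈ KR.Fil m d) : L F = 0 := by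
  have := hL 0 F (by rwa [zero_add])
  exact this

theorem Wd_perm_apply {m n : ℕ} {F : Fn} (hF : F ∈ KR.Fil m (n + 1)) {l l' : List (Fin 3)}
    (h : l.Perm l') (hl : l.length = n) : Wd l F = Wd l' F := by
  have h1 := Wd_perm (m := m) h
  rw [hl] at h1
  have := E_zero h1 hF
  rw [LinearMap.sub_apply] at this
  exact sub_eq_zero.mp this

theorem Wd_fil {m n k : ℕ} {F : Fn} (hF : F ∈ KR.Fil m (k + n)) (l : List (Fin 3))
    (hl : l.length = n) : Wd l F ∈ KR.Fil m k := by
  have := Wd_mem (m := m) l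
  rw [hl] at this
  exact this k F hF

theorem Wd_A {m : ℕ} {F : Fn} (hF : F ∈ A m) (l : List (Fin 3)) : Wd l F ∈ A m := by
  induction l with
  | nil => exact hF
  | cons a l ih =>
    rw [Wd_cons, Module.End.mul_apply]
    exact X_mem a ih

/-- Membership in the filtration by words. -/
theorem mem_Fil_of_words {m : ℕ} : ∀ (n : ℕ) (F : Fn), F ∈ A m →
    (∀ l : List (Fin 3), l.length = n → Wd l F = 0) → F ∈ KR.Fil m n := by
  intro n
  induction n with
  | zero =>
    intro F _ h
    exact h [] rfl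
  | succ n ih =>
    intro F hF h
    refine mem_Fil_succ.mpr ⟨hF, fun a => ih _ (X_mem a hF) fun l hl => ?_⟩
    have := h (l ++ [a]) (by simp [hl])
    rw [Wd_append, Module.End.mul_apply, Wd_cons, Wd_nil, mul_one] at this
    exact this

theorem foldr_eq (l : List (Fin 3)) (v : Mat → ZMod 3) : l.foldr Xd v = Wd l v := by
  induction l with
  | nil => rfl
  | cons a l ih =>
    rw [List.foldr_cons, ih, Xd_eq, Wd_cons, Module.End.mul_apply]

theorem sym_cons (v : Mat → ZMod 3) (i : Fin 3) (l : List (Fin 3)) :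
    sym v (i :: l) = ac i (Wd l v) := by
  rw [← foldr_eq]
  rfl

/-! ### Stability of the relations -/

theorem WR_X {v : Mat → ZMod 3} (h : WR v) (a : Fin 3) : WR (X a v) := by
  have e : ∀ M, X a v M = v (M * qg a) - v M := fun M => rfl
  refine ⟨fun M => ?_, fun M => ?_, fun M => ?_⟩
  · rw [e, e, mul_assoc, h.S, h.S]
    ring
  · rw [e, e, mul_assoc, h.E, h.E]
  · rw [e, e, e]
    have h1 := h.U (M * qg a)
    have h2 := h.U M
    rw [mul_assoc mU M, mul_assoc (mU * mU) M]
    linear_combination h1 - h2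

theorem TM_X (L : List Mat) (v : Mat → ZMod 3) (a : Fin 3) : TM L (X a v) = X a (TM L v) := by
  ext M
  have e : X a (TM L v) M = TM L v (M * qg a) - TM L v M := rfl
  rw [e]
  clear e
  unfold TM
  induction L with
  | nil => simp
  | cons N L ih =>
    rw [List.map_cons, List.sum_cons, List.map_cons, List.sum_cons, List.map_cons,
      List.sum_cons, ih]
    have e' : X a v (N.adjugate * M) = v (N.adjugate * M * qg a) - v (N.adjugate * M) := rfl
    rw [e', mul_assoc]
    ring

theorem KK_X {m : ℕ} {v : Mat → ZMod 3} (h : KK m v) (a : Fin 3) : KK m (X a v) := by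
  refine ⟨(lev_iff m _).mpr (X_mem a ((lev_iff m v).mp h.mf)), WR_X h.wr a, ?_⟩
  rw [TM_X, h.T2, map_zero]

theorem KK_Wd {m : ℕ} {v : Mat → ZMod 3} (h : KK m v) (l : List (Fin 3)) : KK m (Wd l v) := by
  induction l with
  | nil => exact h
  | cons a l ih =>
    rw [Wd_cons, Module.End.mul_apply]
    exact KK_X ih a

end

end KR

end LO

end Pool.Agent.Lib.MP_7c5fb9_nt
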